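import Mathlib

/-!
A scalar delay equation with sign-changing coefficient: the condition
`0 < liminf ∫_{h(t)}^t a ≤ limsup ∫_{h(t)}^t a < M` does not give asymptotic stability, however
small `M` is. The counterexample has the non-decaying periodic solution `x(t) = e^{cos t}`.
-/

namespace Pool.Agent.Results.MP_5ce401_an.NoConstant

open MeasureTheory Set Filter Topology

/-- The standing assumptions on the pair `(a,h)` on `[t₀,∞)`. -/
def Admissible (t₀ : ℝ) (a h : ℝ → ℝ) : Prop :=
  ContinuousOn a (Ici t₀) ∧ ContinuousOn h (Ici t₀) ∧ (∀ t, t₀ ≤ t → h t ≤ t) ∧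
  Tendsto h atTop atTop ∧ (∃ A : ℝ, ∀ t, t₀ ≤ t → |a t| ≤ A) ∧ ∃ τ : ℝ, ∀ t, t₀ ≤ t → t - h t ≤ τ

/-- Admissible initial functions: continuous and bounded on `(-∞,t₀]`. -/
def InitialFunction (t₀ : ℝ) (ψ : ℝ → ℝ) : Prop :=
  ContinuousOn ψ (Iic t₀) ∧ ∃ C : ℝ, ∀ t, t ≤ t₀ → |ψ t| ≤ C

/-- `x` is the solution of `x' + a(t) x(h(t)) = 0` for `t ≥ t₀` with initial function `ψ`
(at `t₀` the derivative is the right derivative). -/
def IsSolution (t₀ : ℝ) (a h ψ x : ℝ → ℝ) : Prop :=
  (∀ t, t ≤ t₀ → x t = ψ t) ∧ ContinuousOn x (Ici t₀) ∧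
    ∀ t, t₀ ≤ t → HasDerivWithinAt x (-(a t * x (h t))) (Ici t₀) t

/-- Asymptotic stability of the equation. -/
def AsymptoticallyStable (t₀ : ℝ) (a h : ℝ → ℝ) : Prop :=
  (∀ ε : ℝ, 0 < ε → ∃ δ : ℝ, 0 < δ ∧ ∀ ψ x : ℝ → ℝ, InitialFunction t₀ ψ → IsSolution t₀ a h ψ x →
    (∀ t, t ≤ t₀ → |ψ t| ≤ δ) → ∀ t, t₀ ≤ t → |x t| < ε) ∧
  ∀ ψ x : ℝ → ℝ, InitialFunction t₀ ψ → IsSolution t₀ a h ψ x → Tendsto x atTop (𝓝 0)

/-! ### The example -/

/-- the perturbation of the delay -/
noncomputable def eta (ε t : ℝ) : ℝ := ε * max 0 (-Real.sin t)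

/-- the delayed argument -/
noncomputable def hh (ε t : ℝ) : ℝ := t - 2 * Real.pi + eta ε t

/-- the coefficient -/
noncomputable def aa (ε t : ℝ) : ℝ := Real.sin t * Real.exp (Real.cos t - Real.cos (t + eta ε t))

variable {ε : ℝ}

lemma eta_cont : Continuous (eta ε) := by unfold eta; fun_prop

lemma hh_cont : Continuous (hh ε) := by
  unfold hh; exact (continuous_id.sub continuous_const).add eta_cont

lemma aa_cont : Continuous (aa ε) := by
  unfold aa
  exact Real.continuous_sin.mul (Real.continuous_exp.comp (Real.continuous_cos.sub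
    (Real.continuous_cos.comp (continuous_id.add eta_cont))))

lemma eta_nonneg (h0 : 0 ≤ ε) (t : ℝ) : 0 ≤ eta ε t := mul_nonneg h0 (le_max_left _ _)

lemma eta_le (h0 : 0 ≤ ε) (t : ℝ) : eta ε t ≤ ε := by
  unfold eta
  have : max 0 (-Real.sin t) ≤ 1 := max_le zero_le_one (by linarith [Real.neg_one_le_sin t])
  nlinarith

lemma eta_of_nonneg {t : ℝ} (h : 0 ≤ Real.sin t) : eta ε t = 0 := by
  unfold eta; rw [max_eq_left (by linarith)]; ring

lemma eta_of_neg {t : ℝ} (h : Real.sin t < 0) : eta ε t = ε * (-Real.sin t) := by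
  unfold eta; rw [max_eq_right (by linarith)]

lemma eta_per : Function.Periodic (eta ε) (2 * Real.pi) := fun t => by
  unfold eta; rw [Real.sin_add_two_pi]

lemma aa_per : Function.Periodic (aa ε) (2 * Real.pi) := fun t => by
  unfold aa
  rw [Real.sin_add_two_pi, Real.cos_add_two_pi, eta_per t]
  have : t + 2 * Real.pi + eta ε t = (t + eta ε t) + 2 * Real.pi := by ring
  rw [this, Real.cos_add_two_pi]

lemma sin_shift {t s : ℝ} (ht : Real.sin t < 0) (hs0 : 0 ≤ s) (hs : s ≤ -Real.sin t) :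
    Real.sin (t + s) ≤ 0 := by
  rw [Real.sin_add]
  have hs1 : s ≤ 1 := hs.trans (by linarith [Real.neg_one_le_sin t])
  have hpi := Real.pi_gt_three
  have a0 : 0 ≤ Real.sin s := Real.sin_nonneg_of_nonneg_of_le_pi hs0 (by linarith)
  have a1 : Real.sin s ≤ -Real.sin t := (Real.sin_le hs0).trans hs
  have a2 : 0 ≤ Real.cos s := Real.cos_nonneg_of_neg_pi_div_two_le_of_le (by linarith) (by linarith)
  have p1 := Real.sin_sq_add_cos_sq t
  have p2 := Real.sin_sq_add_cos_sq s
  have a3 : |Real.cos t| ≤ Real.cos s := by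
    apply abs_le_of_sq_le_sq _ a2
    nlinarith
  have a4 : Real.cos t * Real.sin s ≤ |Real.cos t| * Real.sin s :=
    mul_le_mul_of_nonneg_right (le_abs_self _) a0
  have a5 : |Real.cos t| * Real.sin s ≤ Real.cos s * (-Real.sin t) :=
    mul_le_mul a3 a1 a0 a2
  nlinarith

lemma cos_mono {t s : ℝ} (ht : Real.sin t < 0) (hs0 : 0 ≤ s) (hs : s ≤ -Real.sin t) :
    Real.cos t ≤ Real.cos (t + s) := by
  have h1 : Real.cos t - Real.cos (t + s) = 2 * Real.sin (t + s / 2) * Real.sin (s / 2) := by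
    rw [Real.cos_sub_cos]
    have e1 : (t + (t + s)) / 2 = t + s / 2 := by ring
    have e2 : (t - (t + s)) / 2 = -(s / 2) := by ring
    rw [e1, e2, Real.sin_neg]; ring
  have h2 := sin_shift ht (s := s / 2) (by linarith) (by linarith)
  have h3 : 0 ≤ Real.sin (s / 2) :=
    Real.sin_nonneg_of_nonneg_of_le_pi (by linarith)
      (by linarith [Real.neg_one_le_sin t, Real.pi_gt_three])
  nlinarith

lemma cos_eta (h0 : 0 ≤ ε) (h1 : ε ≤ 1) (t : ℝ) : Real.cos t ≤ Real.cos (t + eta ε t) := by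
  rcases le_or_gt 0 (Real.sin t) with h | h
  · rw [eta_of_nonneg h, add_zero]
  · apply cos_mono h (eta_nonneg h0 t)
    rw [eta_of_neg h]
    nlinarith

lemma exp_le (h0 : 0 ≤ ε) (h1 : ε ≤ 1) (t : ℝ) :
    Real.exp (Real.cos t - Real.cos (t + eta ε t)) ≤ 1 := by
  rw [Real.exp_le_one_iff]; linarith [cos_eta h0 h1 t]

lemma aa_abs (h0 : 0 ≤ ε) (h1 : ε ≤ 1) (t : ℝ) : |aa ε t| ≤ 1 := by
  unfold aa
  rw [abs_mul, abs_of_pos (Real.exp_pos _)]
  have a := exp_le h0 h1 t
  have b := Real.abs_sin_le_one t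
  have c := abs_nonneg (Real.sin t)
  have d := Real.exp_pos (Real.cos t - Real.cos (t + eta ε t))
  nlinarith

/-- `a(t) - sin t` is between `0` and `ε` -/
lemma gap (h0 : 0 ≤ ε) (h1 : ε ≤ 1) (t : ℝ) : 0 ≤ aa ε t - Real.sin t ∧ aa ε t - Real.sin t ≤ ε := by
  unfold aa
  rcases le_or_gt 0 (Real.sin t) with h | h
  · rw [eta_of_nonneg h, add_zero, sub_self, Real.exp_zero]
    constructor <;> linarith
  · have a := exp_le h0 h1 t
    have e := Real.add_one_le_exp (Real.cos t - Real.cos (t + eta ε t))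
    have l : Real.cos (t + eta ε t) - Real.cos t ≤ eta ε t := by
      have := Real.abs_cos_sub_cos_le (t + eta ε t) t
      have h2 := le_abs_self (Real.cos (t + eta ε t) - Real.cos t)
      have h3 : |t + eta ε t - t| = eta ε t := by
        rw [add_sub_cancel_left, abs_of_nonneg (eta_nonneg h0 t)]
      linarith
    have m := eta_le h0 t
    have n := Real.neg_one_le_sin t
    constructor
    · nlinarith
    · nlinarith

/-- the mean of `a` over a period -/
noncomputable def del (ε : ℝ) : ℝ := ∫ t in (-Real.pi)..Real.pi, aa ε t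

lemma del_eq : del ε = ∫ t in (-Real.pi)..Real.pi, (aa ε t - Real.sin t) := by
  rw [intervalIntegral.integral_sub (aa_cont.intervalIntegrable _ _)
    (Real.continuous_sin.intervalIntegrable _ _)]
  rw [integral_sin]
  simp [del]

lemma del_le (h0 : 0 ≤ ε) (h1 : ε ≤ 1) : del ε ≤ 2 * Real.pi * ε := by
  rw [del_eq]
  have hp := Real.pi_pos
  have := intervalIntegral.integral_mono_on (by linarith : -Real.pi ≤ Real.pi)
    (f := fun t => aa ε t - Real.sin t) (g := fun _ => ε) (μ := volume)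
    ((aa_cont.sub Real.continuous_sin).intervalIntegrable _ _)
    intervalIntegrable_const (fun t _ => (gap h0 h1 t).2)
  refine this.trans (le_of_eq ?_)
  rw [intervalIntegral.integral_const, smul_eq_mul]; ring

lemma del_pos (h0 : 0 < ε) (h1 : ε ≤ 1) : 0 < del ε := by
  rw [del_eq]
  have hp := Real.pi_pos
  apply intervalIntegral.integral_pos (f := fun t => aa ε t - Real.sin t) (by linarith)
    ((aa_cont.sub Real.continuous_sin).continuousOn) (fun t _ => (gap h0.le h1 t).1)
  refine ⟨-(Real.pi / 2), ⟨by linarith, by linarith⟩, ?_⟩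
  have hs : Real.sin (-(Real.pi / 2)) = -1 := by rw [Real.sin_neg, Real.sin_pi_div_two]
  have hc : Real.cos (-(Real.pi / 2)) = 0 := by rw [Real.cos_neg, Real.cos_pi_div_two]
  have he : eta ε (-(Real.pi / 2)) = ε := by rw [eta_of_neg (by rw [hs]; norm_num), hs]; ring
  have hc2 : Real.cos (-(Real.pi / 2) + ε) = Real.sin ε := by
    rw [neg_add_eq_sub, ← Real.cos_neg, neg_sub, Real.cos_pi_div_two_sub]
  show 0 < aa ε (-(Real.pi / 2)) - Real.sin (-(Real.pi / 2))
  unfold aa
  rw [he, hs, hc, hc2]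
  have h2 : 0 < Real.sin ε := Real.sin_pos_of_pos_of_lt_pi h0 (by linarith [Real.pi_gt_three])
  have h3 : Real.exp (0 - Real.sin ε) < 1 := by
    rw [Real.exp_lt_one_iff]; linarith
  linarith

lemma int_eq (t : ℝ) : ∫ z in (hh ε t)..t, aa ε z = del ε - ∫ z in t..(t + eta ε t), aa ε z := by
  have hi : ∀ a b, IntervalIntegrable (aa ε) volume a b := fun a b => aa_cont.intervalIntegrable a b
  have e1 : ∫ z in (t - 2 * Real.pi)..t, aa ε z = del ε := by
    have h := (aa_per (ε := ε)).intervalIntegral_add_eq (t - 2 * Real.pi) (-Real.pi)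
    have a1 : t - 2 * Real.pi + 2 * Real.pi = t := by ring
    have a2 : -Real.pi + 2 * Real.pi = Real.pi := by ring
    rw [a1, a2] at h
    exact h
  have e2 : ∫ z in (t - 2 * Real.pi)..(hh ε t), aa ε z = ∫ z in t..(t + eta ε t), aa ε z := by
    have h := intervalIntegral.integral_comp_sub_right (f := aa ε) (a := t) (b := t + eta ε t)
      (2 * Real.pi)
    have a1 : t + eta ε t - 2 * Real.pi = hh ε t := by unfold hh; ring
    rw [a1] at h
    rw [← h]
    apply intervalIntegral.integral_congr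
    intro z _
    have := aa_per (ε := ε) (z - 2 * Real.pi)
    rw [sub_add_cancel] at this
    exact this.symm
  have e3 := intervalIntegral.integral_add_adjacent_intervals (hi (t - 2 * Real.pi) (hh ε t))
    (hi (hh ε t) t)
  linarith

lemma small_int (h0 : 0 ≤ ε) (h1 : ε ≤ 1) (t : ℝ) :
    -ε ≤ ∫ z in t..(t + eta ε t), aa ε z ∧ ∫ z in t..(t + eta ε t), aa ε z ≤ 0 := by
  have he := eta_nonneg h0 t
  have hle : t ≤ t + eta ε t := by linarith
  have hi : IntervalIntegrable (aa ε) volume t (t + eta ε t) := aa_cont.intervalIntegrable _ _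
  constructor
  · have h := intervalIntegral.integral_mono_on hle (intervalIntegrable_const (c := (-1:ℝ))) hi
      (fun z _ => (abs_le.mp (aa_abs h0 h1 z)).1)
    rw [intervalIntegral.integral_const, smul_eq_mul] at h
    have := eta_le h0 t
    linarith
  · rcases le_or_gt 0 (Real.sin t) with h | h
    · rw [eta_of_nonneg h, add_zero, intervalIntegral.integral_same]
    · have h2 := intervalIntegral.integral_mono_on hle hi (intervalIntegrable_const (c := (0:ℝ)))
        (fun z hz => by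
          have hz2 : Real.sin z ≤ 0 := by
            have := sin_shift h (s := z - t) (by linarith [hz.1]) (by
              have a := hz.2
              rw [eta_of_neg h] at a
              nlinarith)
            rwa [add_sub_cancel] at this
          exact mul_nonpos_of_nonpos_of_nonneg hz2 (Real.exp_pos _).le)
      simpa using h2

/-- the periodic solution -/
noncomputable def xx (t : ℝ) : ℝ := Real.exp (Real.cos t)

lemma xx_sol (t : ℝ) : HasDerivAt xx (-(aa ε t * xx (hh ε t))) t := by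
  have h := (Real.hasDerivAt_cos t).exp
  unfold xx
  refine h.congr_deriv ?_
  have e : Real.cos (hh ε t) = Real.cos (t + eta ε t) := by
    have : hh ε t = t + eta ε t - 2 * Real.pi := by unfold hh; ring
    rw [this, Real.cos_sub_two_pi]
  rw [e]
  unfold aa
  rw [mul_assoc, ← Real.exp_add]
  have : Real.cos t - Real.cos (t + eta ε t) + Real.cos (t + eta ε t) = Real.cos t := by ring
  rw [this]; ring

lemma admissible (h0 : 0 ≤ ε) (h1 : ε ≤ 1) : Admissible 0 (aa ε) (hh ε) := by
  have hp := Real.pi_gt_three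
  refine ⟨aa_cont.continuousOn, hh_cont.continuousOn, fun t _ => ?_, ?_,
    ⟨1, fun t _ => aa_abs h0 h1 t⟩, ⟨2 * Real.pi, fun t _ => ?_⟩⟩
  · unfold hh; have := eta_le h0 t; linarith
  · refine tendsto_atTop_mono (f := fun t => t - 2 * Real.pi) (fun t => ?_)
      (tendsto_atTop_add_const_right _ (-(2 * Real.pi)) tendsto_id)
    unfold hh; have := eta_nonneg h0 t; linarith
  · unfold hh; have := eta_nonneg h0 t; linarith

/-- There is no constant `M > 0` with the property asked for: for every `M > 0` there is an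
admissible pair `(a,h)` with `0 < liminf ∫_{h(t)}^t a` and `limsup ∫_{h(t)}^t a < M` whose equation is
not asymptotically stable. -/
theorem result : ∀ M : ℝ, 0 < M → ∃ (t₀ : ℝ) (a h : ℝ → ℝ), Admissible t₀ a h ∧
    0 < liminf (fun t : ℝ => ∫ z in (h t)..t, a z) atTop ∧
    limsup (fun t : ℝ => ∫ z in (h t)..t, a z) atTop < M ∧
    ¬ AsymptoticallyStable t₀ a h := by
  intro M hM
  set ε : ℝ := min 1 (M / 8) with hε
  have h0 : 0 < ε := lt_min one_pos (by positivity)
  have h1 : ε ≤ 1 := min_le_left _ _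
  have h2 : 8 * ε ≤ M := by
    have : ε ≤ M / 8 := min_le_right _ _
    linarith
  have hpi : Real.pi < 3.15 := Real.pi_lt_d2
  have hlow : ∀ t : ℝ, del ε ≤ ∫ z in (hh ε t)..t, aa ε z := fun t => by
    rw [int_eq]; linarith [(small_int h0.le h1 t).2]
  have hup : ∀ t : ℝ, ∫ z in (hh ε t)..t, aa ε z ≤ del ε + ε := fun t => by
    rw [int_eq]; linarith [(small_int h0.le h1 t).1]
  have hb1 : IsBoundedUnder (· ≤ ·) atTop (fun t : ℝ => ∫ z in (hh ε t)..t, aa ε z) :=
    isBoundedUnder_of ⟨_, hup⟩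
  have hb2 : IsBoundedUnder (· ≥ ·) atTop (fun t : ℝ => ∫ z in (hh ε t)..t, aa ε z) :=
    isBoundedUnder_of ⟨_, hlow⟩
  refine ⟨0, aa ε, hh ε, admissible h0.le h1, ?_, ?_, ?_⟩
  · refine lt_of_lt_of_le (del_pos h0 h1) ?_
    exact le_liminf_of_le hb1.isCoboundedUnder_ge (Eventually.of_forall hlow)
  · refine lt_of_le_of_lt (limsup_le_of_le hb2.isCoboundedUnder_le (Eventually.of_forall hup)) ?_
    have := del_le h0.le h1
    nlinarith
  · intro H
    have hx : IsSolution 0 (aa ε) (hh ε) xx xx := by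
      refine ⟨fun _ _ => rfl, ?_, fun t _ => (xx_sol t).hasDerivWithinAt⟩
      exact (Real.continuous_exp.comp Real.continuous_cos).continuousOn
    have hi : InitialFunction 0 xx := by
      refine ⟨(Real.continuous_exp.comp Real.continuous_cos).continuousOn, Real.exp 1, fun t _ => ?_⟩
      unfold xx
      rw [abs_of_pos (Real.exp_pos _)]
      exact Real.exp_le_exp.mpr (Real.cos_le_one t)
    have ht := H.2 xx xx hi hx
    have hge : ∀ t : ℝ, Real.exp (-1) ≤ xx t := fun t =>
      Real.exp_le_exp.mpr (Real.neg_one_le_cos t)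
    have := ge_of_tendsto' ht hge
    linarith [Real.exp_pos (-1)]

end Pool.Agent.Results.MP_5ce401_an.NoConstant
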